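import Mathlib
import Pool.Agent.Helpers.KuDefs
import Pool.Agent.Helpers.KuMain

set_option autoImplicit false

universe u v

namespace Pool.Agent.Results.MP_4977d9_al.NoUniversalAlgebraicAlgebra

open Pool.Agent.Ku

/-- Over every countable field there is no universal algebraic algebra of countable dimension. -/
theorem result (F : Type u) [Field F] [Countable F] (U : Type v) [NonUnitalRing U] [Module F U]
    [IsScalarTower F U U] [SMulCommClass F U U] : ¬ IsUniversal F U :=
  no_universal F U

end Pool.Agent.Results.MP_4977d9_al.NoUniversalAlgebraicAlgebra
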